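import Pool.Agent.TH179.QT.Main

/-!
# MP_63fcef_ag, Q1: a smooth quadric threefold in characteristic two

Over a field `k` of characteristic two the quadric `X : x0^2 + x1 x2 + x3 x4 = 0` in `P^4` is
smooth, and its equation has zero derivative with respect to `x0`. So `d/dx0` is a nowhere
vanishing map from the ample line bundle `O(1)` to the tangent sheaf of `X`, while `X` is not
isomorphic to `P^3`: it has five linearly independent pairwise proportional vector fields.
-/

set_option autoImplicit false

open AlgebraicGeometry

namespace Pool.Agent.Results.MP_63fcef_ag.QuadricThreefold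

open Pool.Agent.TH179.QT

/-- Over every field `k` of characteristic two there is a smooth projective threefold `X` which is
not isomorphic to projective space, with an ample line bundle `L` and a nonzero (even nowhere
vanishing) morphism `φ : L → T_X`. -/
theorem result (k : Type) [Field k] [CharP k 2] :
    ∃ (X : Scheme.{0}) (s : X ⟶ Spec (.of k)),
      IsSmoothProjectiveVariety 3 s ∧ ¬ IsProjectiveSpace 3 s ∧
      ∃ (L : LineBundle X) (φ : TangentMap s L), L.IsAmple ∧ ¬ φ.IsZero ∧ φ.NowhereVanishing :=
  ⟨Pool.Agent.Helper198.Sch.V (JQ k), Pool.Agent.Helper198.Sch.V.str (JQ k),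
    isSmoothProjectiveVariety_Q k, not_isProjectiveSpace, OO k, phiO k, isAmple_OO k, phiO_ne k,
    phiO_nowhere k⟩

end Pool.Agent.Results.MP_63fcef_ag.QuadricThreefold
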